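import Pool.Agent.H.MP_939d63_gt.B

namespace Pool.Agent.Results.MP_939d63_gt.Counter

open Set Metric

/-- `a, b, c` are in counterclockwise cyclic order on the unit circle. -/
def Ccw (a b c : Circle) : Prop := 0 < ((starRingEnd ℂ) ((b : ℂ) - a) * ((c : ℂ) - a)).im

/-- A homeomorphism of the circle preserving the cyclic order. -/
def OrientationPreserving (φ : Circle ≃ₜ Circle) : Prop :=
  ∀ a b c, Ccw a b c → Ccw (φ a) (φ b) (φ c)

/-- A lamination; an unordered pair is recorded by both of its ordered pairs. -/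
structure IsLamination (Λ : Set (Circle × Circle)) : Prop where
  nonempty : Λ.Nonempty
  ne : ∀ w ∈ Λ, w.1 ≠ w.2
  symm : ∀ w ∈ Λ, w.swap ∈ Λ
  closed : ∀ w ∈ closure Λ, w.1 ≠ w.2 → w ∈ Λ
  unlinked : ∀ w ∈ Λ, ∀ w' ∈ Λ, ¬ (Ccw w.1 w'.1 w.2 ∧ Ccw w.2 w'.2 w.1)

/-- The union of the leaves, realised as geodesics (chords) in the Klein model of the disc. -/
def leaves (Λ : Set (Circle × Circle)) : Set ℂ := ⋃ w ∈ Λ, segment ℝ (w.1 : ℂ) w.2

/-- Every gap is the convex hull of finitely many (at least three) points of the circle. -/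
def VeryFull (Λ : Set (Circle × Circle)) : Prop :=
  ∀ z ∈ ball (0 : ℂ) 1 \ leaves Λ, ∃ F : Finset Circle, 3 ≤ F.card ∧
    closure (connectedComponentIn (ball (0 : ℂ) 1 \ leaves Λ) z) =
      convexHull ℝ ((fun a : Circle => (a : ℂ)) '' F)

open Pool.Agent.H.MP_939d63_gt in
theorem result : ∃ (G : Subgroup (Circle ≃ₜ Circle)) (Λ : Set (Circle × Circle)),
    G.FG ∧ (∀ g ∈ G, OrientationPreserving g) ∧ IsLamination Λ ∧ VeryFull Λ ∧
    interior (leaves Λ) = ∅ ∧ (∀ g ∈ G, Prod.map g g '' Λ = Λ) ∧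
    ∃ c : G, c ≠ 1 ∧ ∀ (H : Type) [Group H] [Finite H] (f : G →* H), f c = 1 := by
  classical
  let K : Subgroup OI := Subgroup.closure {tau, cj tau, cj (cj tau)}
  have hK : K ≤ Good := (Subgroup.closure_le _).2 (by
    rintro _ (rfl | rfl | rfl)
    exacts [tau_good, cj_good tau_good, cj_good (cj_good tau_good)])
  have m : ∀ f ∈ ({tau, cj tau, cj (cj tau)} : Set OI), Phi f ∈ K.map Phi := fun f hf =>
    ⟨f, Subgroup.subset_closure hf, rfl⟩
  refine ⟨K.map Phi, Lam, ?_, ?_, ⟨⟨_, mem_Lam (L.o2 0)⟩, fun _ h => h.1, fun _ => Lam_symm,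
    fun _ => Lam_closed, fun _ h _ h' => Lam_unlinked h h'⟩, fun z hz => ?_, interior_U, ?_, ?_⟩
  · exact (Subgroup.fg_iff _).2 ⟨_, (MonoidHom.map_closure Phi _).symm,
      (Set.toFinite _).image _⟩
  · rintro _ ⟨f, -, rfl⟩
    exact phi_ccw f
  · obtain ⟨p, q, r, h1, h2, h⟩ := gap_eq hz
    have i := emb_P.injective
    refine ⟨{P p, P q, P r}, (Finset.card_eq_three.2 ⟨_, _, _, i.ne h1.ne, i.ne (h1.trans h2).ne,
      i.ne h2.ne, rfl⟩).ge, h.trans ?_⟩
    simp [image_insert_eq, coe_P]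
  · rintro _ ⟨f, hf, rfl⟩
    apply Subset.antisymm
    · rintro _ ⟨w, hw, rfl⟩
      exact Lam_inv (hK hf) hw
    · intro w hw
      refine ⟨_, Lam_inv (Good.inv_mem (hK hf)) hw, ?_⟩
      have e : ∀ z, Phi f (Phi f⁻¹ z) = z := fun z => by
        rw [← Homeomorph.mul_apply, ← map_mul, mul_inv_cancel, map_one]; rfl
      exact Prod.ext (e _) (e _)
  · let g : K.map Phi := ⟨_, m tau (by simp)⟩
    let a : K.map Phi := ⟨_, m (cj tau) (by simp)⟩
    let b : K.map Phi := ⟨_, m (cj (cj tau)) (by simp)⟩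
    refine ⟨a * b * (b * a)⁻¹, fun h => not_comm (Phi_inj ?_), fun H _ _ f => ?_⟩
    · rw [map_mul, map_mul]
      exact congrArg Subtype.val (mul_inv_eq_one.1 h)
    · have hN := orderOf_pos (f g)
      have c : a * (g ^ orderOf (f g) * b * (g ^ orderOf (f g))⁻¹) =
          (g ^ orderOf (f g) * b * (g ^ orderOf (f g))⁻¹) * a := by
        apply Subtype.ext
        have := congrArg Phi (comm_shift hN)
        simp only [map_mul, map_pow, map_inv] at this
        exact this
      have c := congrArg f c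
      simp only [map_mul, map_pow, map_inv, pow_orderOf_eq_one, one_mul, inv_one, mul_one] at c
      rw [map_mul, map_inv, map_mul, map_mul, c, mul_inv_cancel]

end Pool.Agent.Results.MP_939d63_gt.Counter
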